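import Mathlib
import Pool.Agent.SHA.Defs
import Pool.Agent.SHA.Final

set_option autoImplicit false

/-!
# Admissible group classes: characterisation and the members in a generalised soluble universe

The definitions of the statement are in `Pool.Agent.SHA.Defs`.

Sketch. Let `K` be closed under subgroups, images and automorphism groups.

* If `K` contains the free group of rank two, it contains every countable group `C`: with
  `e : Z -> C` surjective, `C` is an image of the kernel of the exponent sum of the first generator,
  through the wreath product of `C` by `Z`. The free abelian group of rank two has the free group
  of rank two in its automorphism group. An infinite elementary abelian `p`-group has every
  countable group in its automorphism group. In an infinite torsion abelian group with finitely many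
  elements of each order there is an infinite section on which the powers to two different primes
  are automorphisms that generate a free abelian group of rank two. So the abelian members of an
  admissible class are almost cyclic.
* Now only closure under subgroups and images is used, and that abelian members are almost cyclic.
  Groups with an ascending normal series with finite or abelian factors are treated with the
  elements of finite normal closure. A locally nilpotent torsion member has nontrivial centre (take
  a maximal abelian subgroup, it is finite), so it is hypercentral and finite. A locally soluble
  torsion member without subgroups of finite index is locally nilpotent (chief factors are abelian,
  so finite, so central). A residually finite locally soluble torsion member, if infinite, has an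
  infinite residually finite section with finite centralisers, in which an element of prime order
  acts without fixed points on a subgroup of finite index, which is therefore locally nilpotent, so
  finite. With the finite residual this gives that locally soluble torsion members are finite. The
  general locally soluble member is reduced to this case with the transfer to the centre.
* If the class has an infinite member of the kind considered, it contains the infinite cyclic group
  `Z`, hence the cyclic groups, hence (signs on a product of cyclic groups of distinct prime
  orders) all elementary abelian `2`-groups and all finite groups.
-/

namespace Pool.Agent.Results.MP_027985_al.Characterisation

open Pool.Agent.SHA

/-- For a class closed under subgroups, images and automorphism groups: it is admissible iff it does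
not contain the free group of rank two, iff its abelian members are almost cyclic, iff its
hyper-(locally soluble or finite) members are almost cyclic. An admissible class with an infinite
hyper-(locally soluble or finite) member contains all groups that are finite or cyclic, and the
class of these groups is admissible. -/
theorem result :
    (∀ K : (G : Type) → [Group G] → Prop, SHAClosed K →
      (Admissible K ↔ ¬ K (FreeGroup (Fin 2))) ∧
      (Admissible K ↔ ∀ (A : Type) [CommGroup A], K A → AlmostCyclic A) ∧
      (Admissible K ↔ ∀ (G : Type) [Group G], K G → HyperLSF G → AlmostCyclic G)) ∧
    (∀ K : (G : Type) → [Group G] → Prop, Admissible K →
      (∃ (G : Type) (_ : Group G), K G ∧ HyperLSF G ∧ Infinite G) →
      ∀ (G : Type) [Group G], (Finite G ∨ IsCyclic G) → K G) ∧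
    Admissible (fun (G : Type) [Group G] => Finite G ∨ IsCyclic G) :=
  ⟨fun _ hK => ⟨admissible_iff_free hK, admissible_iff_abelian hK, admissible_iff_hyper hK⟩,
    fun _ hK hinf G _ hG => contains_finite_or_cyclic hK hinf G hG,
    admissible_finite_or_cyclic⟩

end Pool.Agent.Results.MP_027985_al.Characterisation
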