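import Mathlib
import Pool.Agent.SHA.Defs
import Pool.Agent.SHAF.ListDefs
import Pool.Agent.SHAI.FBZ
import Pool.Agent.SHAI.EADefs
import Pool.Agent.SHAI.ClassDefs
import Pool.Agent.SHAI.Class
import Pool.Agent.SHAI.LGDefs
import Pool.Agent.SHAI.LocGraded
import Pool.Agent.SHAJ.Impl
import Pool.Agent.SHAJ.Table

set_option autoImplicit false

/-!
# Admissible classes of elementary amenable groups

The definitions of the statement are in `Pool.Agent.SHA.Defs`, `Pool.Agent.SHAF.GoodDefs`,
`Pool.Agent.SHAF.ListDefs`, `Pool.Agent.SHAI.FBZ`, `Pool.Agent.SHAI.EADefs`,
`Pool.Agent.SHAI.LGDefs`, `Pool.Agent.SHAI.ClassDefs`, `Pool.Agent.SHAJ.Defs` and
`Pool.Agent.SHAJ.Impl`.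

Sketch. Let `K` be an admissible class.

* The abelian members of `K` are almost cyclic, and so are all hyper-(locally soluble or finite)
  members. Extensions of almost cyclic groups by almost cyclic groups in `K` are almost cyclic. A
  locally finite member is finite: otherwise it has an infinite section in which all centralisers
  of nontrivial elements are finite; a theorem of Brauer and Fowler and an ultrafilter show that
  this section has no involutions, so it is locally soluble. Locally almost cyclic members are then
  almost cyclic, so all elementary amenable members are almost cyclic by induction.
* If `K` contains the elementary abelian group `Fin 3 → ℤˣ` of order 8, it contains all finite groups. If it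
  contains the direct product of the infinite dihedral group and a group of order 2, it contains all
  almost cyclic groups: the automorphism group of `D × V`, with `V` elementary abelian, contains
  `D × V × V` and `D × F` for every group `F` acting on `V`. Every other member that is infinite,
  almost cyclic and maps onto the infinite dihedral group with a nontrivial finite kernel leads to
  this group.
* If `K` does not contain `E 3`, its elementary amenable members are finite, and by induction on the
  order they are in the list: for soluble groups through the Fitting subgroup, for the other ones
  through the Sylow 2-subgroups, which have order 4 or 8, the centralisers of involutions and the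
  fusion of involutions. The groups of order greater than 120 in the list are metabelian, so
  residually finite members are finite, and locally graded members are in the list.
* The automorphism groups of the groups in the list are computed; this gives the implications that
  describe the closure under automorphism groups inside the list.
-/

namespace Pool.Agent.Results.MP_027985_al.Classification

open Pool.Agent.SHA Pool.Agent.SHAF Pool.Agent.SHAI Pool.Agent.SHAJ

/-- A class of groups that is closed under subgroups, images and automorphism groups is admissible
iff its part that consists of tame (elementary amenable) groups is; if it does not contain the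
elementary abelian group `Fin 3 → ℤˣ` of order 8, all its locally graded members are in the explicit list
`ListL` of finite groups. A class `K` of tame groups is admissible iff it is closed under subgroups
and images and it is the class of almost cyclic groups, or it contains all finite groups and its
infinite members are finite-by-(infinite cyclic) or infinite dihedral, or it lies in the list
`ListL` and satisfies the explicit implications `Impl`. The largest classes of the second and of the
third kind are admissible. -/
theorem result :
    (∀ K : (G : Type) → [Group G] → Prop, SHAClosed K →
      (Admissible K ↔ Admissible (fun (G : Type) [Group G] => K G ∧ Tame G))) ∧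
    (∀ K : (G : Type) → [Group G] → Prop, SHAClosed K → ¬ K (Fin 3 → ℤˣ) →
      ∀ (G : Type) [Group G], K G → LocGraded G → ListL G) ∧
    (∀ K : (G : Type) → [Group G] → Prop, (∀ (G : Type) [Group G], K G → Tame G) →
      (Admissible K ↔
        (∀ (G H : Type) [Group G] [Group H] (f : H →* G), Function.Injective f → K G → K H) ∧
        (∀ (G Q : Type) [Group G] [Group Q] (f : G →* Q), Function.Surjective f → K G → K Q) ∧
        ((∀ (G : Type) [Group G], K G ↔ AlmostCyclic G) ∨
          ((∀ (G : Type) [Group G], Finite G → K G) ∧
            ∀ (G : Type) [Group G], K G → Infinite G →
              FinByZ G ∨ Nonempty (G ≃* DihedralGroup 0)) ∨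
          ((∀ (G : Type) [Group G], K G → ListL G) ∧ Impl K)))) ∧
    Admissible BigClass ∧ Admissible ListL := by
  refine ⟨fun K hK => admissible_iff_tame_part hK,
    fun K hK hE G _ hG h => finList_iff.mp (locGraded_finList hK hE hG h), fun K hT => ?_,
    bigClass_admissible, listL_admissible⟩
  rw [admissible_tame_iff hT]
  refine and_congr_right fun hsub => and_congr_right fun hquo => or_congr Iff.rfl
    (or_congr Iff.rfl (and_congr_right fun hL => ?_))
  exact ⟨fun h => impl_of_aut_closed hsub h, fun h G _ hG =>
    aut_closed_of_impl hsub hquo h G hG (finList_iff.mpr (hL G hG))⟩

end Pool.Agent.Results.MP_027985_al.Classification
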