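import Mathlib
import Pool.Agent.SHA.Defs
import Pool.Agent.SHA.Final

set_option autoImplicit false

/-!
# Structure of an arbitrary member of an admissible group class

The definitions of the statement are in `Pool.Agent.SHA.Defs`.

Sketch. In an admissible class the hyper-(locally soluble or finite) members are almost cyclic (see
`Pool.Agent.SHA.Fin`). Products and extensions of almost cyclic normal subgroups of a member are
again members with an ascending normal series with finite or abelian factors, so they are almost
cyclic; the union `R` of all almost cyclic normal subgroups has such a series too. If `R` is
infinite, it has an infinite cyclic characteristic subgroup `A` (generated by the powers to a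
suitable factorial), and an element without powers in `A` would give a free abelian subgroup of
rank two.
-/

namespace Pool.Agent.Results.MP_027985_al.Structure

open Pool.Agent.SHA

/-- Every member `G` of an admissible class has a normal almost cyclic subgroup `R` that contains
all normal hyper-(locally soluble or finite) subgroups of `G`, and `G / R` has no nontrivial normal
subgroup of this kind; if `R` is infinite, `G` has an infinite cyclic normal subgroup with torsion
quotient. -/
theorem result (K : (G : Type) → [Group G] → Prop) (hK : Admissible K) (G : Type) [Group G]
    (hG : K G) :
    ∃ R : Subgroup G, ∃ _ : R.Normal, AlmostCyclic R ∧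
      (∀ N : Subgroup G, N.Normal → HyperLSF N → N ≤ R) ∧
      (∀ M : Subgroup (G ⧸ R), M.Normal → HyperLSF M → M = ⊥) ∧
      (Infinite R → ∃ A : Subgroup G, A.Normal ∧ IsCyclic A ∧ Infinite A ∧
        ∀ g : G, ∃ n : ℕ, n ≠ 0 ∧ g ^ n ∈ A) :=
  structure_thm hK G hG

end Pool.Agent.Results.MP_027985_al.Structure
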