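import Mathlib
import Pool.Agent.SHA.Defs
import Pool.Agent.SHATB.Final

set_option autoImplicit false

/-!
# Involutions and 2-subgroups of arbitrary members of an admissible group class

The definitions of the statement are in `Pool.Agent.SHA.Defs`.

Sketch. Let `K` be admissible. Locally soluble torsion members are finite (see
`Pool.Agent.SHA.LocSol`), so the finite soluble subgroups of a member that are kernels of
surjections from subgroups onto groups with a given property satisfy the ascending chain condition.

* Let `G` be an infinite torsion member with an involution `t` with finite centraliser; with the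
  chain condition we may assume that `d` has finite centraliser whenever `d ≠ 1` is centralised or
  inverted by an involution with finite centraliser. Two involutions of a torsion group are
  conjugate or centralise a common involution, so all involutions have finite centraliser, and
  `t` times its conjugate under `g` has odd order for all but finitely many `g`; then `g = c x` with
  `c` in the centraliser of `t` and `x` in the set `X` of the elements inverted by `t`. For a
  nonprincipal ultrafilter on `X` there is one `c` such that the inverse of `c` times `a b` is in `X`
  for almost all `a` and almost all `b`. For two such `a`, `a'` the element `w`, the inverse of `a`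
  times `a'`, commutes with `b` times the inverse of `c` for almost all `b`; but `w ≠ 1` is inverted
  by the involution `t a`, a contradiction.
* So involutions of infinite torsion members have infinite centralisers. Dividing by central
  involutions gives the finiteness of the members that are 2-groups (chain condition) and the
  infinite centralisers of finite 2-subgroups (induction). For a 2-group `Q` of automorphisms of `G`
  this is applied to the product of `Q` and the group of inner automorphisms.
* If `S` is a maximal 2-subgroup of `G` and `C` its centraliser, `C` modulo the intersection of `S`
  and `C` has no involutions.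
-/

namespace Pool.Agent.Results.MP_027985_al.TwoSubgroups

open Pool.Agent.SHA

/-- Let `K` be an admissible class of groups.
(1) Every 2-subgroup of every member is finite, and if some finite group is not in `K`, it has order
at most 8 or is cyclic of order 16.
(2) Let `G` be a torsion member. Any two maximal 2-subgroups of `G` are conjugate. If `G` is
infinite, then every 2-subgroup of `G` has infinite centraliser, every 2-subgroup of the
automorphism group of `G` is finite and fixes infinitely many elements of `G`, and `G` has an
infinite section `C / Z`, with `Z` finite and central in `C`, in which all elements have odd order.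
(3) If `K` has an infinite torsion member, it has one in which all elements have odd order and that
has no nontrivial normal hyper-(locally soluble or finite) subgroup. -/
theorem result (K : (G : Type) → [Group G] → Prop) (hK : Admissible K) :
    (∀ (G : Type) [Group G], K G → ∀ P : Subgroup G, IsPGroup 2 P →
      Finite P ∧ ((∃ (F : Type) (_ : Group F), Finite F ∧ ¬ K F) →
        Nat.card P ≤ 8 ∨ (Nat.card P = 16 ∧ IsCyclic P))) ∧
    (∀ (G : Type) [Group G], K G → (∀ x : G, IsOfFinOrder x) →
      (∀ P Q : Sylow 2 G, ∃ g : G,
        (Q : Subgroup G) = (P : Subgroup G).map (MulAut.conj g).toMonoidHom) ∧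
      (Infinite G → ∀ P : Subgroup G, IsPGroup 2 P → {x : G | ∀ q ∈ P, x * q = q * x}.Infinite) ∧
      (Infinite G → ∀ Q : Subgroup (MulAut G), IsPGroup 2 Q →
        Finite Q ∧ {g : G | ∀ α ∈ Q, α g = g}.Infinite) ∧
      (Infinite G → ∃ (C : Subgroup G) (Z : Subgroup C) (_ : Z.Normal),
        Finite Z ∧ Z ≤ Subgroup.center C ∧ Infinite (C ⧸ Z) ∧ ∀ x : C ⧸ Z, Odd (orderOf x))) ∧
    ((∃ (G : Type) (_ : Group G), K G ∧ Infinite G ∧ ∀ x : G, IsOfFinOrder x) →
      ∃ (G : Type) (_ : Group G), K G ∧ Infinite G ∧ (∀ x : G, Odd (orderOf x)) ∧
        ∀ N : Subgroup G, N.Normal → HyperLSF N → N = ⊥) :=
  ⟨fun G _ hKG P hP => SHATB.two_subgroup hK G hKG P hP,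
    fun G _ hKG ht => ⟨fun P Q => SHATB.sylow2 hK G hKG ht P Q,
      fun hinf P hP => SHATB.inner (hK.1.shab hK.2) G hKG hinf (SHATB.tors_iff.mpr ht) P hP,
      fun hinf Q hQ => SHATB.outer_fix hK G hKG hinf ht Q hQ,
      fun hinf => SHATB.odd_sec hK G hKG hinf ht⟩,
    fun h => SHATB.odd_member hK h⟩

end Pool.Agent.Results.MP_027985_al.TwoSubgroups
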